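/-
QP-T6 (MP_55050e_al): the subgroup and the non-primitivity of `w` in it.
-/
import Pool.Agent.Helper29.QP.Defs

open MonoidAlgebra Module

namespace Pool.Agent.Helper15.QP

open Pool.Agent.Helper29.QP

universe u

variable {K : Type u} [Field K] {X : Type}

/-- contragredient action on the dual, as a hom to the automorphism group. -/
noncomputable def contra {G : Type} [Group G] {M : Type u} [AddCommGroup M] [Module K M]
    (ρ : G →* (M ≃ₗ[K] M)) : G →* MulAut (Multiplicative (M →ₗ[K] K)) where
  toFun h := AddEquiv.toMultiplicative ((ρ h).symm.dualMap.toAddEquiv)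
  map_one' := by
    ext a
    simp
    rfl
  map_mul' g h := by
    ext a
    simp
    rfl

theorem exists_deriv {ι G : Type} [Group G] {M : Type u} [AddCommGroup M] [Module K M]
    (b : FreeGroupBasis ι G) (ρ : G →* (M ≃ₗ[K] M)) (e : ι → (M →ₗ[K] K)) :
    ∃ δ : G → (M →ₗ[K] K), (∀ i, δ (b i) = e i) ∧
      ∀ g h y, δ (g * h) y = δ g y + δ h (ρ g⁻¹ y) := by
  classical
  let F : G →* (Multiplicative (M →ₗ[K] K)) ⋊[contra ρ] G :=
    b.lift (fun i => ⟨Multiplicative.ofAdd (e i), b i⟩)
  have hF : ∀ g, (F g).right = g := by
    intro g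
    have h1 : (SemidirectProduct.rightHom).comp F = MonoidHom.id G := by
      apply b.ext_hom
      intro i
      simp [F]
    exact DFunLike.congr_fun h1 g
  refine ⟨fun g => Multiplicative.toAdd (F g).left, ?_, ?_⟩
  · intro i
    simp [F]
  · intro g h y
    have h2 : (F (g * h)).left = (F g).left * (contra ρ g) (F h).left := by
      rw [map_mul, SemidirectProduct.mul_left, hF]
    simp only [h2]
    rw [toAdd_mul, LinearMap.add_apply]
    congr 1
    simp [contra]

/-- choice of the transversal -/
theorem exists_g {L : ℕ} (hL : 0 < L) {C : Type} [Fintype C] [DecidableEq C] (col : ℕ → C)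
    (sg : ℕ → Bool) (xs : C → X) {Q : Type} [Fintype Q] (cl : C × Bool → Q)
    (hcl : Function.Surjective cl) (hsurj : ∀ c, ∃ j < L, col j = c)
    (D : ℕ → Q) (hD : ∀ j < L, D j = cl (col j, sg j))
    (hD' : ∀ j < L, D (j + 1) = cl (col j, !(sg j))) (hDL : D L = D 0) :
    ∃ (g : Q → FreeGroup X) (B : Finset C), B.card + 1 = Fintype.card Q ∧ g (D 0) = 1 ∧
      ∀ c ∈ B, g (cl (c, true)) * FreeGroup.of (xs c) * (g (cl (c, false)))⁻¹ = 1 := by
  classical
  have hvis : ∀ q, ∃ j < L, D j = q := by
    intro q
    obtain ⟨⟨c, b⟩, rfl⟩ := hcl q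
    obtain ⟨j, hj, rfl⟩ := hsurj c
    by_cases hb : b = sg j
    · exact ⟨j, hj, by rw [hD j hj, hb]⟩
    · have hb' : b = !(sg j) := by
        cases b <;> cases h : sg j <;> simp_all
      by_cases hj' : j + 1 < L
      · exact ⟨j + 1, hj', by rw [hD' j hj, hb']⟩
      · refine ⟨0, hL, ?_⟩
        have : j + 1 = L := by omega
        rw [← hDL, ← this, hD' j hj, hb']
  have main : ∀ n, n < Fintype.card Q → ∃ (S : Finset Q) (g : Q → FreeGroup X) (B : Finset C),
      S.card = n + 1 ∧ D 0 ∈ S ∧ B.card = n ∧ g (D 0) = 1 ∧
      (∀ c ∈ B, ∀ b, cl (c, b) ∈ S) ∧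
      ∀ c ∈ B, g (cl (c, true)) * FreeGroup.of (xs c) * (g (cl (c, false)))⁻¹ = 1 := by
    intro n
    induction n with
    | zero =>
      intro _
      exact ⟨{D 0}, fun _ => 1, ∅, by simp, by simp, by simp, by simp, by simp, by simp⟩
    | succ n ih =>
      intro hn
      obtain ⟨S, g, B, hS, h0, hB, hg, hBS, hg1⟩ := ih (by omega)
      have hex : ∃ j < L, D j ∈ S ∧ D (j + 1) ∉ S := by
        by_contra hcon
        push Not at hcon
        have hall : ∀ j ≤ L, D j ∈ S := by
          intro j
          induction j with
          | zero => intro _; exact h0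
          | succ j ihj => intro hj; exact hcon j (by omega) (ihj (by omega))
        have : S = Finset.univ := by
          ext q
          simp only [Finset.mem_univ, iff_true]
          obtain ⟨j, hj, rfl⟩ := hvis q
          exact hall j hj.le
        rw [this, Finset.card_univ] at hS
        omega
      obtain ⟨j, hj, hjS, hjS'⟩ := hex
      have hcB : col j ∉ B := by
        intro hc
        apply hjS'
        rw [hD' j hj]
        exact hBS _ hc _
      have hne : D j ≠ D (j + 1) := fun h => hjS' (h ▸ hjS)
      have hne0 : D 0 ≠ D (j + 1) := fun h => hjS' (h ▸ h0)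
      refine ⟨insert (D (j + 1)) S, Function.update g (D (j + 1))
        (g (D j) * (if sg j then FreeGroup.of (xs (col j)) else (FreeGroup.of (xs (col j)))⁻¹)),
        insert (col j) B, ?_, ?_, ?_, ?_, ?_, ?_⟩
      · rw [Finset.card_insert_of_notMem hjS', hS]
      · exact Finset.mem_insert_of_mem h0
      · rw [Finset.card_insert_of_notMem hcB, hB]
      · rw [Function.update_of_ne hne0, hg]
      · intro c hc b
        rw [Finset.mem_insert] at hc
        rcases hc with rfl | hc
        · by_cases hb : b = sg j
          · rw [hb, ← hD j hj]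
            exact Finset.mem_insert_of_mem hjS
          · have hb' : b = !(sg j) := by
              cases b <;> cases h : sg j <;> simp_all
            rw [hb', ← hD' j hj]
            exact Finset.mem_insert_self _ _
        · exact Finset.mem_insert_of_mem (hBS c hc b)
      · intro c hc
        rw [Finset.mem_insert] at hc
        rcases hc with rfl | hc
        · have e1 := hD j hj
          have e2 := hD' j hj
          cases h : sg j with
          | true =>
            rw [h] at e1 e2
            simp only [Bool.not_true] at e2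
            rw [← e1, ← e2, Function.update_of_ne hne, Function.update_self]
            simp
          | false =>
            rw [h] at e1 e2
            simp only [Bool.not_false] at e2
            rw [← e1, ← e2, Function.update_of_ne hne, Function.update_self]
            simp
        · have k1 : cl (c, true) ≠ D (j + 1) := fun h => hjS' (h ▸ hBS c hc true)
          have k2 : cl (c, false) ≠ D (j + 1) := fun h => hjS' (h ▸ hBS c hc false)
          rw [Function.update_of_ne k1, Function.update_of_ne k2]
          exact hg1 c hc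
  have hQ : 0 < Fintype.card Q := Fintype.card_pos_iff.mpr ⟨D 0⟩
  obtain ⟨S, g, B, hS, h0, hB, hg, hBS, hg1⟩ := main (Fintype.card Q - 1) (by omega)
  exact ⟨g, B, by omega, hg, hg1⟩

/-- Abstract form with positions in `ℕ`. -/
theorem core {M : Type u} [AddCommGroup M] [Module K M]
    (θ : FreeGroup X →* (M ≃ₗ[K] M)) (z : M) (hz : z ≠ 0)
    {L : ℕ} {C : Type} [Fintype C] [DecidableEq C] (col : ℕ → C)
    (sg : ℕ → Bool) (xs : C → X) (P : ℕ → FreeGroup X) (hP0 : P 0 = 1)
    (hP : ∀ j < L, P (j + 1) = P j *
      (if sg j then FreeGroup.of (xs (col j)) else (FreeGroup.of (xs (col j)))⁻¹))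
    (hzs : ∀ c, ∑ j ∈ Finset.range L, (if col j = c then
        sgn K (sg j) • θ (if sg j then P j else P (j + 1))⁻¹ z else 0) = 0)
    {Q : Type} (cl : C × Bool → Q)
    (D : ℕ → Q) (hD : ∀ j < L, D j = cl (col j, sg j))
    (hD' : ∀ j < L, D (j + 1) = cl (col j, !(sg j))) (hDL : D L = D 0)
    (g : Q → FreeGroup X) (hg0 : g (D 0) = 1) (H : Subgroup (FreeGroup X))
    (hH : ∀ c, g (cl (c, true)) * FreeGroup.of (xs c) * (g (cl (c, false)))⁻¹ ∈ H) :
    P L ∈ H ∧ ¬ PrimIn H (P L) := by
  classical
  set hc : C → H := fun c => ⟨_, hH c⟩ with hhc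
  have hq : ∀ j ≤ L, P j * (g (D j))⁻¹ ∈ H := by
    intro j
    induction j with
    | zero => intro _; rw [hP0, hg0]; simp
    | succ j ih =>
      intro hj
      have h1 := ih (by omega)
      have h2 := hH (col j)
      have e0 := hP j (by omega)
      have e1 := hD j (by omega)
      have e2 := hD' j (by omega)
      cases h : sg j with
      | true =>
        rw [h] at e0 e1 e2
        simp only [Bool.not_true] at e2
        rw [← e1, ← e2] at h2
        have := H.mul_mem h1 h2
        rw [e0]
        simpa [mul_assoc] using this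
      | false =>
        rw [h] at e0 e1 e2
        simp only [Bool.not_false] at e2
        rw [← e1, ← e2] at h2
        have := H.mul_mem h1 (H.inv_mem h2)
        rw [e0]
        simpa [mul_assoc] using this
  have hPL : P L ∈ H := by
    have := hq L le_rfl
    rw [hDL, hg0] at this
    simpa using this
  refine ⟨hPL, ?_⟩
  rintro ⟨ι, b, i0, hb⟩
  obtain ⟨ψ, hψ⟩ : ∃ ψ : M →ₗ[K] K, ψ z ≠ 0 := by
    by_contra hcon
    push Not at hcon
    exact hz ((Module.forall_dual_apply_eq_zero_iff K z).mp hcon)
  obtain ⟨δ, hδ1, hδ⟩ := exists_deriv b (θ.comp H.subtype)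
    (fun i => if i = i0 then ψ else 0)
  have hδone : ∀ y, δ 1 y = 0 := by
    intro y
    have := hδ 1 1 y
    simp at this
    exact this
  have hδinv : ∀ (h : H) y, δ h⁻¹ y = - δ h (θ h y) := by
    intro h y
    have h1 := hδ h⁻¹ h y
    rw [inv_mul_cancel, hδone] at h1
    simp only [inv_inv, MonoidHom.comp_apply, Subgroup.subtype_apply] at h1
    linear_combination -h1
  have hwb : b i0 = ⟨P L, hPL⟩ := Subtype.ext hb
  -- increments
  set T : ℕ → K := fun j => sgn K (sg j) * δ (hc (col j)) (θ (g (cl (col j, true)))
    (θ (if sg j then P j else P (j + 1))⁻¹ z)) with hT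
  have key : ∀ j (hj : j ≤ L), δ ⟨P j * (g (D j))⁻¹, hq j hj⟩ z = ∑ i ∈ Finset.range j, T i := by
    intro j
    induction j with
    | zero =>
      intro hj
      have : (⟨P 0 * (g (D 0))⁻¹, hq 0 hj⟩ : H) = 1 := by
        apply Subtype.ext
        simp [hP0, hg0]
      rw [this, hδone]
      simp
    | succ j ih =>
      intro hj
      rw [Finset.sum_range_succ, ← ih (by omega)]
      have e0 := hP j (by omega)
      have e1 := hD j (by omega)
      have e2 := hD' j (by omega)
      cases h : sg j with
      | true =>
        have hq2 : (⟨P (j + 1) * (g (D (j + 1)))⁻¹, hq (j + 1) hj⟩ : H) =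
            ⟨P j * (g (D j))⁻¹, hq j (by omega)⟩ * hc (col j) := by
          apply Subtype.ext
          rw [h] at e0 e1 e2
          simp only [Bool.not_true] at e2
          simp only [hhc, Subgroup.coe_mul]
          rw [e0, e1, e2]
          simp [mul_assoc]
        rw [hq2, hδ]
        congr 1
        simp only [hT, h]
        simp only [sgn, if_true, one_mul]
        congr 1
        rw [h] at e1
        simp only [MonoidHom.comp_apply, Subgroup.subtype_apply, InvMemClass.coe_inv, mul_inv_rev,
          inv_inv, map_mul, e1]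
        rfl
      | false =>
        have hq2 : (⟨P (j + 1) * (g (D (j + 1)))⁻¹, hq (j + 1) hj⟩ : H) =
            ⟨P j * (g (D j))⁻¹, hq j (by omega)⟩ * (hc (col j))⁻¹ := by
          apply Subtype.ext
          rw [h] at e0 e1 e2
          simp only [Bool.not_false] at e2
          simp only [hhc, Subgroup.coe_mul, InvMemClass.coe_inv]
          rw [e0, e1, e2]
          simp [mul_assoc]
        rw [hq2, hδ, hδinv]
        simp only [hT, h]
        simp only [sgn, Bool.false_eq_true, if_false, neg_mul, one_mul]
        congr 2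
        congr 1
        rw [h] at e1
        rw [h] at e0
        simp only [MonoidHom.comp_apply, Subgroup.subtype_apply, InvMemClass.coe_inv, mul_inv_rev,
          inv_inv, map_mul, e1, hhc, e0, Bool.false_eq_true, if_false]
        have aux : ∀ (A B : M ≃ₗ[K] M) (y : M), (A * B) y = A (B y) := fun _ _ _ => rfl
        simp only [aux]
        have aux2 : ∀ (a : FreeGroup X) (y : M), θ a⁻¹ (θ a y) = y := by
          intro a y
          rw [← aux, ← map_mul, inv_mul_cancel, map_one]
          rfl
        rw [aux2]
  have hfin := key L le_rfl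
  have hzero : ∑ i ∈ Finset.range L, T i = 0 := by
    have h1 : ∑ i ∈ Finset.range L, T i = ∑ c : C, ∑ i ∈ Finset.range L,
        (if col i = c then T i else 0) := by
      rw [Finset.sum_comm]
      apply Finset.sum_congr rfl
      intro i _
      simp
    rw [h1]
    apply Finset.sum_eq_zero
    intro c _
    have h2 : ∑ i ∈ Finset.range L, (if col i = c then T i else 0) =
        δ (hc c) (θ (g (cl (c, true))) (∑ j ∈ Finset.range L, (if col j = c then
        sgn K (sg j) • θ (if sg j then P j else P (j + 1))⁻¹ z else 0))) := by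
      rw [map_sum, map_sum]
      apply Finset.sum_congr rfl
      intro i _
      by_cases h : col i = c
      · rw [if_pos h, if_pos h]
        subst h
        simp only [hT]
        rw [map_smul, map_smul, smul_eq_mul]
      · rw [if_neg h, if_neg h, map_zero, map_zero]
    rw [h2, hzs c, map_zero, map_zero]
  have hlast : (⟨P L * (g (D L))⁻¹, hq L le_rfl⟩ : H) = b i0 := by
    rw [hwb]
    apply Subtype.ext
    simp [hDL, hg0]
  rw [hlast, hδ1, hzero] at hfin
  simp at hfin
  exact hψ hfin

theorem exists_subgroup {M : Type u} [AddCommGroup M] [Module K M]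
    (θ : FreeGroup X →* (M ≃ₗ[K] M)) (z : M) (hz : z ≠ 0)
    (W : List (X × Bool)) (hne : W ≠ []) (hfix : θ (FreeGroup.mk W) z = z)
    {C : Type} [Fintype C] [DecidableEq C] (col : Fin W.length → C)
    (hsurj : Function.Surjective col)
    (href : ∀ i j, col i = col j → (W.get i).1 = (W.get j).1)
    (hzs : ∀ c, ∑ j : Fin W.length, (if col j = c then
        sgn K (W.get j).2 • θ (tl W j)⁻¹ z else 0) = 0)
    {Q : Type} [Fintype Q] (cl : C × Bool → Q) (hcl : Function.Surjective cl)
    (hadj : ∀ i j : Fin W.length, (i : ℕ) + 1 = j ∨ ((i : ℕ) + 1 = W.length ∧ (j : ℕ) = 0) →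
      cl (col i, !(W.get i).2) = cl (col j, (W.get j).2)) :
    ∃ S : Finset (FreeGroup X), S.card + Fintype.card Q ≤ Fintype.card C + 1 ∧
      FreeGroup.mk W ∈ Subgroup.closure (S : Set (FreeGroup X)) ∧
      ¬ PrimIn (Subgroup.closure (S : Set (FreeGroup X))) (FreeGroup.mk W) := by
  classical
  have hL : 0 < W.length := List.length_pos_iff.mpr hne
  -- positions as natural numbers
  set ex : ℕ → Fin W.length := fun k => if h : k < W.length then ⟨k, h⟩ else ⟨0, hL⟩ with hex
  have hexlt : ∀ k (h : k < W.length), ex k = ⟨k, h⟩ := by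
    intro k h
    simp only [hex, dif_pos h]
  have hexL : ex W.length = ⟨0, hL⟩ := by
    simp only [hex, dif_neg (lt_irrefl _)]
  choose st hst using hsurj
  have hxs : ∀ j, (W.get (st (col j))).1 = (W.get j).1 := fun j => href _ _ (hst _)
  set xs : C → X := fun c => (W.get (st c)).1 with hxsdef
  set D : ℕ → Q := fun k => cl (col (ex k), (W.get (ex k)).2) with hDdef
  have hD' : ∀ j < W.length, D (j + 1) = cl (col (ex j), !((W.get (ex j)).2)) := by
    intro j hj
    simp only [hDdef]
    rw [hexlt j hj]
    by_cases hj' : j + 1 < W.length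
    · rw [hexlt _ hj']
      exact (hadj ⟨j, hj⟩ ⟨j + 1, hj'⟩ (Or.inl rfl)).symm
    · have : j + 1 = W.length := by omega
      rw [this, hexL]
      exact (hadj ⟨j, hj⟩ ⟨0, hL⟩ (Or.inr ⟨this, rfl⟩)).symm
  have hDL : D W.length = D 0 := by
    simp only [hDdef]
    rw [hexL, hexlt 0 hL]
  obtain ⟨g, B, hBcard, hg0, hgB⟩ := exists_g hL (fun k => col (ex k)) (fun k => (W.get (ex k)).2)
    xs cl hcl (fun c => ⟨(st c : ℕ), (st c).isLt, by
      show col (ex (st c)) = c
      rw [hexlt _ (st c).isLt]; exact hst c⟩) D (fun j _ => rfl) hD' hDL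
  set h : C → FreeGroup X :=
    fun c => g (cl (c, true)) * FreeGroup.of (xs c) * (g (cl (c, false)))⁻¹ with hh
  refine ⟨Finset.image h (Finset.univ \ B), ?_, ?_⟩
  · have h1 : (Finset.image h (Finset.univ \ B)).card ≤ (Finset.univ \ B).card :=
      Finset.card_image_le
    have h2 : (Finset.univ \ B).card + B.card = Fintype.card C := by
      rw [← Finset.card_univ]
      exact Finset.card_sdiff_add_card_eq_card (Finset.subset_univ B)
    omega
  · have hmem : ∀ c, h c ∈ Subgroup.closure
        ((Finset.image h (Finset.univ \ B) : Finset (FreeGroup X)) : Set (FreeGroup X)) := by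
      intro c
      by_cases hc : c ∈ B
      · have : h c = 1 := hgB c hc
        rw [this]
        exact Subgroup.one_mem _
      · apply Subgroup.subset_closure
        simp only [Finset.coe_image, Set.mem_image, Finset.mem_coe, Finset.mem_sdiff,
          Finset.mem_univ, true_and]
        exact ⟨c, hc, rfl⟩
    have hstep : ∀ j < W.length, FreeGroup.mk (W.take (j + 1)) = FreeGroup.mk (W.take j) *
        (if (W.get (ex j)).2 then FreeGroup.of (xs (col (ex j)))
          else (FreeGroup.of (xs (col (ex j))))⁻¹) := by
      intro j hj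
      have htk : W.take (j + 1) = W.take j ++ [W.get ⟨j, hj⟩] := by
        rw [List.take_add_one, List.getElem?_eq_getElem hj]
        rfl
      rw [htk, ← FreeGroup.mul_mk]
      congr 1
      have hx1 : xs (col (ex j)) = (W.get (ex j)).1 := hxs _
      rw [hx1, hexlt j hj]
      generalize W.get ⟨j, hj⟩ = a
      rcases a with ⟨x, b⟩
      cases b
      · simp [FreeGroup.of, FreeGroup.inv_mk, FreeGroup.invRev]
      · simp [FreeGroup.of]
    have hc := core θ z hz (L := W.length) (fun k => col (ex k)) (fun k => (W.get (ex k)).2) xs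
      (fun k => FreeGroup.mk (W.take k)) (by simp; rfl) hstep
      (by
        intro c
        refine Eq.trans ?_ (hzs c)
        rw [Finset.sum_range]
        apply Finset.sum_congr rfl
        intro i _
        rw [hexlt i i.isLt]
        rfl)
      cl D (fun j _ => rfl) hD' hDL g hg0 _ hmem
    simp only [List.take_length] at hc
    exact hc

end Pool.Agent.Helper15.QP
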